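import Pool.Agent.H98.SLN.Targets

/-!
# Row USB of the board `sln_modules`: the neutral mass
-/

set_option autoImplicit false

open MeasureTheory ProbabilityTheory Filter Topology
open Pool.Agent.H95 Pool.Agent.H95.Cop
open Pool.Agent.H55.CG (pz VV Mo)
open Pool.Agent.H98.CE (pc WB HK OBJ)
open Pool.Agent.H98.SLN

namespace Pool.Agent.H86.SLN

theorem uu_tilt (f : ℕ → ℝ) (a : ℝ) (s : ℕ) :
    uu (fun m => f m * Real.exp (-(a * m))) s = Real.exp (-(a * s)) * uu f s := by
  induction s using Nat.strong_induction_on with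
  | _ s ih =>
    cases s with
    | zero => simp [uu_zero]
    | succ s =>
      rw [uu_succ, uu_succ, Finset.mul_sum]
      refine Finset.sum_congr rfl fun j hj => ?_
      rw [Finset.mem_range] at hj
      rw [ih (s - j) (by omega)]
      have e1 : Real.exp (-(a * ((s + 1 : ℕ) : ℝ))) =
          Real.exp (-(a * ((j + 1 : ℕ) : ℝ))) * Real.exp (-(a * ((s - j : ℕ) : ℝ))) := by
        rw [← Real.exp_add]
        congr 1
        rw [Nat.cast_sub (by omega : j ≤ s)]
        push_cast
        ring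
      rw [e1]
      ring

/-- the mass of a kernel of mass at most one -/
theorem mass_le (hRID : T_RID) (f : ℕ → ℝ) (h0 : f 0 = 0) (hn : ∀ n, 0 ≤ f n)
    (hs : ∀ N, ∑ n ∈ Finset.range N, f n ≤ 1) (k : ℕ) (S : ℝ)
    (hT : S / 2 ≤ ∑ j ∈ Finset.range k, (1 - ∑ m ∈ Finset.range (j + 1), f m)) :
    (∑ n ∈ Finset.range k, uu f n) * S ≤ 4 * k := by
  obtain ⟨T, hTdef⟩ : ∃ T : ℕ → ℝ, T = fun j => 1 - ∑ i ∈ Finset.range j, f i := ⟨_, rfl⟩
  have hT0 : ∀ j, 0 ≤ T j := by
    intro j
    rw [hTdef]
    have := hs j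
    show 0 ≤ 1 - ∑ i ∈ Finset.range j, f i
    linarith
  have hu : ∀ n, 0 ≤ uu f n := uu_nonneg f hn
  have h1 : ((2 * k : ℕ) : ℝ) = ∑ m ∈ Finset.range (2 * k), ∑ n ∈ Finset.range (m + 1),
      uu f n * T (m + 1 - n) := by
    have h2 : ∀ m ∈ Finset.range (2 * k), ∑ n ∈ Finset.range (m + 1),
        uu f n * T (m + 1 - n) = 1 := by
      intro m _
      rw [hTdef]
      exact hRID f h0 m
    rw [Finset.sum_congr rfl h2]
    simp
  have h3 : ∑ m ∈ Finset.range (2 * k), ∑ n ∈ Finset.range (m + 1), uu f n * T (m + 1 - n) =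
      ∑ n ∈ Finset.range (2 * k), ∑ m ∈ Finset.Ico n (2 * k), uu f n * T (m + 1 - n) := by
    refine Finset.sum_comm' fun m n => ?_
    simp only [Finset.mem_range, Finset.mem_Ico]
    omega
  have h4 : ∑ n ∈ Finset.range k, ∑ m ∈ Finset.Ico n (2 * k), uu f n * T (m + 1 - n) ≤
      ∑ n ∈ Finset.range (2 * k), ∑ m ∈ Finset.Ico n (2 * k), uu f n * T (m + 1 - n) := by
    refine Finset.sum_le_sum_of_subset_of_nonneg ?_ ?_
    · intro n hn
      rw [Finset.mem_range] at hn ⊢
      omega
    · intro n _ _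
      exact Finset.sum_nonneg fun m _ => mul_nonneg (hu n) (hT0 _)
  have h5 : (∑ n ∈ Finset.range k, uu f n) * (S / 2) ≤
      ∑ n ∈ Finset.range k, ∑ m ∈ Finset.Ico n (2 * k), uu f n * T (m + 1 - n) := by
    rw [Finset.sum_mul]
    refine Finset.sum_le_sum fun n hn => ?_
    rw [Finset.mem_range] at hn
    rw [Finset.sum_Ico_eq_sum_range, ← Finset.mul_sum]
    refine mul_le_mul_of_nonneg_left ?_ (hu n)
    have e1 : ∀ i ∈ Finset.range (2 * k - n), T (n + i + 1 - n) = T (i + 1) := by
      intro i _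
      congr 1
      omega
    rw [Finset.sum_congr rfl e1]
    refine hT.trans ?_
    have e2 : ∑ j ∈ Finset.range k, (1 - ∑ m ∈ Finset.range (j + 1), f m) =
        ∑ j ∈ Finset.range k, T (j + 1) := by
      rw [hTdef]
    rw [e2]
    refine Finset.sum_le_sum_of_subset_of_nonneg ?_ fun j _ _ => hT0 _
    intro j hj
    rw [Finset.mem_range] at hj ⊢
    omega
  rw [← h3, ← h1] at h4
  have h6 := h5.trans h4
  push_cast at h6
  linarith

theorem pf_USB (hRID : T_RID) (hWIN : T_WIN) (hTLQ : T_TLQ) (hUSP : T_USP) : T_USB := by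
  intro K α c δ k q h τ hτ hτk b
  obtain ⟨hk1, _, hTS, _, _⟩ := hTLQ K α c δ k q h
  obtain ⟨hs, hT⟩ := hUSP K α c δ k q h τ hτ hτk
  have hk0 : (0 : ℝ) < k := by exact_mod_cast hk1
  obtain ⟨a, ha⟩ : ∃ a : ℝ, a = 64 * δ / k := ⟨_, rfl⟩
  have hδ := h.δ0
  have ha0 : 0 < a := by rw [ha]; positivity
  obtain ⟨f, hf⟩ : ∃ f : ℕ → ℝ, f = fun m => kt K k τ m * Real.exp (-(a * m)) := ⟨_, rfl⟩
  have hfm : ∀ m : ℕ, kt K k τ m * Real.exp (-(64 * δ * m / k)) = f m := by
    intro m
    rw [hf]
    show _ = kt K k τ m * Real.exp (-(a * m))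
    rw [ha]
    congr 3
    ring
  simp only [hfm] at hs hT
  have hkt0 : ∀ m, 0 ≤ kt K k τ m := by
    intro m
    unfold kt
    split_ifs
    · exact mul_nonneg (kk_nonneg K m) (by positivity)
    · exact le_rfl
  have hf0 : f 0 = 0 := by
    rw [hf]
    show kt K k τ 0 * Real.exp (-(a * (0 : ℕ))) = 0
    unfold kt
    rw [if_pos (Nat.zero_le _), kk_zero K h.K0]
    simp
  have hfn : ∀ n, 0 ≤ f n := by
    intro n
    rw [hf]
    exact mul_nonneg (hkt0 n) (Real.exp_pos _).le
  have huf : ∀ n, 0 ≤ uu f n := uu_nonneg f hfn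
  have hU := mass_le hRID f hf0 hfn hs k (TS K k) hT
  obtain ⟨U, hUdef⟩ : ∃ U : ℝ, U = ∑ n ∈ Finset.range k, uu f n := ⟨_, rfl⟩
  rw [← hUdef] at hU
  have hU' : U ≤ 4 * k / TS K k := by
    rw [le_div_iff₀ hTS]
    exact hU
  have hE0 : 0 < Real.exp (64 * δ * (b + 1)) := Real.exp_pos _
  have hin : ∀ e ∈ Finset.range k, (∑ r ∈ Finset.range k,
      if e ≤ b * k + r then uu (kt K k τ) (b * k + r - e) else 0) ≤
        Real.exp (64 * δ * (b + 1)) * U := by
    intro e he
    rw [Finset.mem_range] at he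
    have h1 : (∑ r ∈ Finset.range k, if e ≤ b * k + r then uu (kt K k τ) (b * k + r - e) else 0) ≤
        Real.exp (64 * δ * (b + 1)) *
          ∑ r ∈ Finset.range k, if e ≤ b * k + r then uu f (b * k + r - e) else 0 := by
      rw [Finset.mul_sum]
      refine Finset.sum_le_sum fun r hr => ?_
      rw [Finset.mem_range] at hr
      split_ifs with hc
      · have h2 : uu f (b * k + r - e) = Real.exp (-(a * ((b * k + r - e : ℕ) : ℝ))) *
            uu (kt K k τ) (b * k + r - e) := by
          rw [hf]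
          exact uu_tilt _ _ _
        have h3 : uu (kt K k τ) (b * k + r - e) =
            Real.exp (a * ((b * k + r - e : ℕ) : ℝ)) * uu f (b * k + r - e) := by
          rw [h2, ← mul_assoc, ← Real.exp_add, add_neg_cancel, Real.exp_zero, one_mul]
        rw [h3]
        refine mul_le_mul_of_nonneg_right (Real.exp_le_exp.2 ?_) (huf _)
        have h4 : ((b * k + r - e : ℕ) : ℝ) ≤ ((b : ℝ) + 1) * k := by
          have : b * k + r - e ≤ (b + 1) * k := by
            have : (b + 1) * k = b * k + k := by ring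
            omega
          exact_mod_cast this
        calc a * ((b * k + r - e : ℕ) : ℝ) ≤ a * (((b : ℝ) + 1) * k) :=
              mul_le_mul_of_nonneg_left h4 ha0.le
          _ = 64 * δ * (b + 1) := by
              rw [ha]
              field_simp
      · rw [mul_zero]
    refine h1.trans (mul_le_mul_of_nonneg_left ?_ hE0.le)
    rcases Nat.eq_zero_or_pos b with hb | hb
    · subst hb
      have h2 : (∑ r ∈ Finset.range k, if e ≤ 0 * k + r then uu f (0 * k + r - e) else 0) =
          ∑ r ∈ Finset.Ico e k, uu f (r - e) := by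
        rw [← Finset.sum_filter]
        have h3 : (Finset.range k).filter (fun r => e ≤ 0 * k + r) = Finset.Ico e k := by
          ext r
          simp only [Finset.mem_filter, Finset.mem_range, Finset.mem_Ico]
          omega
        rw [h3]
        refine Finset.sum_congr rfl fun r _ => ?_
        congr 1
        omega
      rw [h2, Finset.sum_Ico_eq_sum_range, hUdef]
      have h4 : ∀ i ∈ Finset.range (k - e), uu f (e + i - e) = uu f i := by
        intro i _
        congr 1
        omega
      rw [Finset.sum_congr rfl h4]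
      refine Finset.sum_le_sum_of_subset_of_nonneg ?_ fun j _ _ => huf _
      intro j hj
      rw [Finset.mem_range] at hj ⊢
      omega
    · have hbk : e ≤ b * k := by
        have : k ≤ b * k := Nat.le_mul_of_pos_left k hb
        omega
      have h2 : (∑ r ∈ Finset.range k, if e ≤ b * k + r then uu f (b * k + r - e) else 0) =
          ∑ n ∈ Finset.Ico (b * k - e) (b * k - e + k), uu f n := by
        rw [Finset.sum_Ico_eq_sum_range]
        have h3 : b * k - e + k - (b * k - e) = k := by omega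
        rw [h3]
        refine Finset.sum_congr rfl fun r _ => ?_
        rw [if_pos (by omega)]
        congr 1
        omega
      rw [h2, hUdef]
      exact hWIN f hf0 hfn hs _ _
  unfold VB
  calc (∑ e ∈ Finset.range k, ∑ r ∈ Finset.range k,
        if e ≤ b * k + r then uu (kt K k τ) (b * k + r - e) else 0)
      ≤ ∑ e ∈ Finset.range k, Real.exp (64 * δ * (b + 1)) * U := Finset.sum_le_sum hin
    _ = k * (Real.exp (64 * δ * (b + 1)) * U) := by
        rw [Finset.sum_const, Finset.card_range, nsmul_eq_mul]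
    _ ≤ k * (Real.exp (64 * δ * (b + 1)) * (4 * k / TS K k)) := by gcongr
    _ = Real.exp (64 * δ * (b + 1)) * (4 * (k : ℝ) ^ 2 / TS K k) := by ring

end Pool.Agent.H86.SLN
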