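import Pool.Agent.H98.SLN.Targets

/-!
# Row BD1 of the board `sln_modules`: the first kind of bad pairs is rare
-/

set_option autoImplicit false

open MeasureTheory ProbabilityTheory Filter Topology
open Pool.Agent.H95 Pool.Agent.H95.Cop
open Pool.Agent.H55.CG (pz VV Mo)
open Pool.Agent.H98.CE (pc WB HK OBJ)
open Pool.Agent.H98.SLN
open scoped ENNReal

namespace Pool.Agent.H86.SLN

theorem H_meas (a b : ℕ) : Measurable (fun x : ℕ → ℝ => H x a b) := by
  unfold H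
  exact Finset.measurable_sum _ fun i _ => measurable_pi_apply i

theorem H_dep {a b n : ℕ} (h : b ≤ n) : DepLt n (fun x : ℕ → ℝ => H x a b) := by
  intro x x' hx
  unfold H
  refine Finset.sum_congr rfl fun i hi => ?_
  rw [Finset.mem_Ico] at hi
  exact hx i (by omega)

theorem cell_sum {M : Type*} [AddCommMonoid M] (ℓ a b : ℕ) (hab : a ≤ b) (G : ℕ → ℕ → M) :
    ∑ y ∈ Finset.Ico (a * ℓ) ((a + 1) * ℓ), ∑ z ∈ Finset.Ico (b * ℓ) ((b + 1) * ℓ), G y z =
    ∑ y ∈ Finset.Ico (0 * ℓ) ((0 + 1) * ℓ),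
      ∑ z ∈ Finset.Ico ((b - a) * ℓ) ((b - a + 1) * ℓ), G (y + a * ℓ) (z + a * ℓ) := by
  have e1 : a * ℓ = 0 * ℓ + a * ℓ := by ring
  have e2 : (a + 1) * ℓ = (0 + 1) * ℓ + a * ℓ := by ring
  have e3 : b * ℓ = (b - a) * ℓ + a * ℓ := by
    rw [← add_mul, Nat.sub_add_cancel hab]
  have e4 : (b + 1) * ℓ = (b - a + 1) * ℓ + a * ℓ := by
    rw [← add_mul]
    congr 1
    omega
  have h1 : ∑ y ∈ Finset.Ico (a * ℓ) ((a + 1) * ℓ), ∑ z ∈ Finset.Ico (b * ℓ) ((b + 1) * ℓ),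
      G y z = ∑ y ∈ Finset.Ico (0 * ℓ + a * ℓ) ((0 + 1) * ℓ + a * ℓ),
      ∑ z ∈ Finset.Ico ((b - a) * ℓ + a * ℓ) ((b - a + 1) * ℓ + a * ℓ), G y z := by
    rw [← e1, ← e2, ← e3, ← e4]
  rw [h1, ← Finset.sum_Ico_add']
  refine Finset.sum_congr rfl fun y _ => ?_
  rw [← Finset.sum_Ico_add']

theorem MM_shift (K : PMF ℕ) (ℓ q a b : ℕ) (hab : a ≤ b) :
    MM K ℓ q a b = MM K ℓ q 0 (b - a) := by
  unfold MM
  rw [cell_sum ℓ a b hab]
  refine Finset.sum_congr rfl fun y _ => Finset.sum_congr rfl fun z _ => ?_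
  congr 1
  omega

theorem YY_shift (hUQB : T_UQB) (K : PMF ℕ) (ℓ q : ℕ) (x : ℕ → ℝ) (a b : ℕ) (hab : a ≤ b) :
    YY K ℓ q x a b = YY K ℓ q (shift (a * ℓ) x) 0 (b - a) := by
  unfold YY
  rw [MM_shift K ℓ q a b hab, cell_sum ℓ a b hab]
  congr 1
  refine Finset.sum_congr rfl fun y _ => Finset.sum_congr rfl fun z _ => ?_
  have e1 : z + a * ℓ - (y + a * ℓ) = z - y := by omega
  rw [e1, H_shift, (hUQB K q).2.2.2.2 (z - y) x y (a * ℓ)]

theorem cD_shift (ℓ : ℕ) (x : ℕ → ℝ) (a b : ℕ) (hab : a ≤ b) :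
    cD ℓ x a b = cD ℓ (shift (a * ℓ) x) 0 (b - a) := by
  unfold cD
  have e1 : 0 * ℓ + a * ℓ = a * ℓ := by ring
  have e2 : (b - a + 1) * ℓ + a * ℓ = (b + 1) * ℓ := by
    rw [← add_mul]
    congr 1
    omega
  rw [H_shift, e1, e2, Nat.cast_sub hab]
  push_cast
  ring

theorem pf_BD1 (hUQB : T_UQB) (_hTLQ : T_TLQ) (hYGD : T_YGD) (hCMT : T_CMT) : T_BD1 := by
  intro K α c δ ℓ q N ν hRG hN hMC a b hab hba hδN
  have := hMC.prob
  have hab' : a ≤ b := by omega
  obtain ⟨γ, hγ⟩ : ∃ γ : ℝ, γ = 1 / (1 + α) := ⟨_, rfl⟩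
  rw [← hγ] at hMC ⊢
  obtain ⟨B, hB⟩ : ∃ B : ℕ, B = b - a := ⟨_, rfl⟩
  have hB1 : 1 ≤ B := by omega
  have hBN : B + 1 ≤ 120 * N := by omega
  have hL : b + 1 - a = B + 1 := by omega
  rw [hL]
  obtain ⟨hprob', hint4, hcm⟩ := hCMT ν hMC.exp (γ / 2)
  obtain ⟨ν', hν'⟩ : ∃ ν' : Measure ℝ, ν' = ν.tilted fun z => γ / 2 * z := ⟨_, rfl⟩
  rw [← hν'] at hprob' hint4 hcm
  have := hprob'
  have hN0 : (0 : ℝ) < N := by exact_mod_cast hN
  have hBNr : (B : ℝ) + 1 ≤ 120 * N := by exact_mod_cast hBN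
  -- the event
  obtain ⟨E, hE⟩ : ∃ E : Set (ℕ → ℝ), E = {x | YY K ℓ q x 0 B < cD ℓ x 0 B - 60} := ⟨_, rfl⟩
  have hcDm : Measurable (fun x : ℕ → ℝ => cD ℓ x 0 B) := by
    unfold cD
    exact ((H_meas _ _).div_const 2).add_const _
  have hYYm : Measurable (fun x : ℕ → ℝ => YY K ℓ q x 0 B) := by
    unfold YY
    refine Measurable.div_const ?_ _
    refine Finset.measurable_sum _ fun y _ => Finset.measurable_sum _ fun z _ => ?_
    exact (((H_meas y z).div_const 2).const_mul _).add ((hUQB K q).2.2.2.1 (z - y) y).1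
  have hEm : MeasurableSet E := by
    rw [hE]
    exact measurableSet_lt hYYm (hcDm.sub_const 60)
  have hcDd : DepLt ((B + 1) * ℓ) (fun x : ℕ → ℝ => cD ℓ x 0 B) := by
    intro x x' hx
    show cD ℓ x 0 B = cD ℓ x' 0 B
    unfold cD
    have h1 := H_dep (a := 0 * ℓ) (le_refl ((B + 1) * ℓ)) x x' hx
    rw [show H x (0 * ℓ) ((B + 1) * ℓ) = H x' (0 * ℓ) ((B + 1) * ℓ) from h1]
  have hYYd : DepLt ((B + 1) * ℓ) (fun x : ℕ → ℝ => YY K ℓ q x 0 B) := by
    intro x x' hx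
    show YY K ℓ q x 0 B = YY K ℓ q x' 0 B
    unfold YY
    congr 1
    refine Finset.sum_congr rfl fun y hy => Finset.sum_congr rfl fun z hz => ?_
    rw [Finset.mem_Ico] at hy hz
    have h1 : y ≤ z := by
      have h2 : y < ℓ := by
        have := hy.2
        rwa [zero_add, one_mul] at this
      have h3 : ℓ ≤ B * ℓ := Nat.le_mul_of_pos_left ℓ hB1
      omega
    have h4 : H x y z = H x' y z := H_dep (a := y) (le_of_lt hz.2) x x' hx
    have h5 : Sq K q x (z - y) y = Sq K q x' (z - y) y := by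
      refine ((hUQB K q).2.2.2.1 (z - y) y).2 x x' fun i hi => hx i ?_
      have : y + (z - y) = z := by omega
      omega
    rw [h4, h5]
  obtain ⟨g, hg⟩ : ∃ g : (ℕ → ℝ) → ℝ≥0∞, g = E.indicator fun _ => 1 := ⟨_, rfl⟩
  have hgm : Measurable g := by
    rw [hg]
    exact measurable_const.indicator hEm
  have hgd : DepLt ((B + 1) * ℓ) g := by
    intro x x' hx
    rw [hg]
    have h1 : x ∈ E ↔ x' ∈ E := by
      rw [hE]
      show YY K ℓ q x 0 B < cD ℓ x 0 B - 60 ↔ YY K ℓ q x' 0 B < cD ℓ x' 0 B - 60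
      have h2 : YY K ℓ q x 0 B = YY K ℓ q x' 0 B := hYYd x x' hx
      have h3 : cD ℓ x 0 B = cD ℓ x' 0 B := hcDd x x' hx
      rw [h2, h3]
    by_cases hxE : x ∈ E
    · rw [Set.indicator_of_mem hxE, Set.indicator_of_mem (h1.1 hxE)]
    · rw [Set.indicator_of_notMem hxE, Set.indicator_of_notMem (fun h => hxE (h1.2 h))]
  -- the probability
  have hPE : (iid ν').real E ≤ 1 / 8 := by
    rw [hE]
    refine hYGD K α c δ ℓ q hRG ν' hint4 (1 / (960 * N)) ?_ ?_ ?_ 0 B (by omega) ?_ ?_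
    · rw [hν']
      exact hMC.t1
    · rw [hν']
      exact hMC.t2
    · rw [hν']
      exact hMC.t4
    · refine le_trans ?_ hδN
      have : 0 ≤ 2 ^ 9 * Real.sqrt δ := by positivity
      refine mul_le_mul_of_nonneg_left ?_ this
      push_cast
      linarith
    · push_cast
      rw [mul_one_div, div_le_div_iff₀ (by positivity) (by norm_num)]
      linarith
  have hPE' : ∫⁻ x, g x ∂(iid ν') ≤ ENNReal.ofReal (1 / 8) := by
    rw [hg, lintegral_indicator hEm, setLIntegral_one, ← ofReal_measureReal]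
    exact ENNReal.ofReal_le_ofReal hPE
  -- the integral
  have hset : {x : ℕ → ℝ | YY K ℓ q x a b < cD ℓ x a b - 60} = shift (a * ℓ) ⁻¹' E := by
    ext x
    rw [hE]
    show YY K ℓ q x a b < cD ℓ x a b - 60 ↔
      YY K ℓ q (shift (a * ℓ) x) 0 B < cD ℓ (shift (a * ℓ) x) 0 B - 60
    rw [YY_shift hUQB K ℓ q x a b hab', cD_shift ℓ x a b hab', hB]
  have hsm : MeasurableSet (shift (a * ℓ) ⁻¹' E) := (measurable_shift _) hEm
  obtain ⟨F, hF⟩ : ∃ F : (ℕ → ℝ) → ℝ≥0∞,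
      F = E.indicator fun x => ENNReal.ofReal (Real.exp (γ * cD ℓ x 0 B)) := ⟨_, rfl⟩
  have hFm : Measurable F := by
    rw [hF]
    exact ((hcDm.const_mul γ).exp.ennreal_ofReal).indicator hEm
  have hFg : ∀ x, F x = ENNReal.ofReal (Real.exp (γ * ((B : ℝ) + 1) / 2)) *
      (ENNReal.ofReal (Real.exp (γ / 2 * H x 0 ((B + 1) * ℓ))) * g x) := by
    intro x
    rw [hF, hg]
    by_cases hxE : x ∈ E
    · rw [Set.indicator_of_mem hxE, Set.indicator_of_mem hxE, mul_one,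
        ← ENNReal.ofReal_mul (Real.exp_pos _).le, ← Real.exp_add]
      congr 2
      unfold cD
      rw [zero_mul]
      push_cast
      ring
    · rw [Set.indicator_of_notMem hxE, Set.indicator_of_notMem hxE, mul_zero, mul_zero]
  have hlint : ∫⁻ x in {x : ℕ → ℝ | YY K ℓ q x a b < cD ℓ x a b - 60},
      ENNReal.ofReal (Real.exp (γ * cD ℓ x a b)) ∂(iid ν) ≤
        ENNReal.ofReal (AA ν ℓ γ ^ (B + 1) / 8) := by
    rw [hset, ← lintegral_indicator hsm]
    have h1 : (shift (a * ℓ) ⁻¹' E).indicator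
        (fun x : ℕ → ℝ => ENNReal.ofReal (Real.exp (γ * cD ℓ x a b))) =
        fun x => F (shift (a * ℓ) x) := by
      funext x
      rw [hF]
      by_cases hx : shift (a * ℓ) x ∈ E
      · rw [Set.indicator_of_mem (show x ∈ shift (a * ℓ) ⁻¹' E from hx),
          Set.indicator_of_mem hx, cD_shift ℓ x a b hab', hB]
      · rw [Set.indicator_of_notMem (show x ∉ shift (a * ℓ) ⁻¹' E from hx),
          Set.indicator_of_notMem hx]
    rw [h1, (measurePreserving_shift ν (a * ℓ)).lintegral_comp hFm]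
    simp_rw [hFg]
    have hHm : Measurable (fun x : ℕ → ℝ =>
        ENNReal.ofReal (Real.exp (γ / 2 * H x 0 ((B + 1) * ℓ)))) :=
      ((H_meas _ _).const_mul _).exp.ennreal_ofReal
    have hHg : Measurable (fun x : ℕ → ℝ =>
        ENNReal.ofReal (Real.exp (γ / 2 * H x 0 ((B + 1) * ℓ))) * g x) := hHm.mul hgm
    rw [lintegral_const_mul _ hHg, hcm ((B + 1) * ℓ) g hgm hgd]
    have hMo : 0 ≤ Mo ν (γ / 2) := by
      unfold Mo
      exact integral_nonneg fun z => (Real.exp_pos _).le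
    calc ENNReal.ofReal (Real.exp (γ * ((B : ℝ) + 1) / 2)) *
          (ENNReal.ofReal (Mo ν (γ / 2) ^ ((B + 1) * ℓ)) * ∫⁻ x, g x ∂(iid ν'))
        ≤ ENNReal.ofReal (Real.exp (γ * ((B : ℝ) + 1) / 2)) *
          (ENNReal.ofReal (Mo ν (γ / 2) ^ ((B + 1) * ℓ)) * ENNReal.ofReal (1 / 8)) := by
          gcongr
      _ = ENNReal.ofReal (AA ν ℓ γ ^ (B + 1) / 8) := by
          rw [← ENNReal.ofReal_mul (by positivity), ← ENNReal.ofReal_mul (Real.exp_pos _).le]
          congr 1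
          unfold AA
          rw [mul_pow, ← pow_mul, ← Real.exp_nat_mul, mul_comm ℓ (B + 1)]
          have e1 : Real.exp (γ * ((B : ℝ) + 1) / 2) =
              Real.exp (((B + 1 : ℕ) : ℝ) * (γ / 2)) := by
            congr 1
            push_cast
            ring
          rw [e1]
          ring
  rw [integral_eq_lintegral_of_nonneg_ae (Filter.Eventually.of_forall fun x =>
    (Real.exp_pos _).le)]
  · refine ENNReal.toReal_le_of_le_ofReal ?_ hlint
    have hMo : 0 ≤ Mo ν (γ / 2) := by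
      unfold Mo
      exact integral_nonneg fun z => (Real.exp_pos _).le
    unfold AA
    positivity
  · have h1 : Measurable (fun x : ℕ → ℝ => cD ℓ x a b) := by
      unfold cD
      exact ((H_meas _ _).div_const 2).add_const _
    exact ((h1.const_mul γ).exp).aestronglyMeasurable

end Pool.Agent.H86.SLN
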