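import Pool.Agent.H98.SLN.Targets

/-!
# Row HKR of the board `sln_modules`: the jump law on the scale of the cells
-/

set_option autoImplicit false

open MeasureTheory ProbabilityTheory Filter Topology
open Pool.Agent.H95 Pool.Agent.H95.Cop
open Pool.Agent.H55.CG (pz VV Mo)
open Pool.Agent.H98.CE (pc WB HK OBJ)
open Pool.Agent.H98.SLN

namespace Pool.Agent.H86.SLN

theorem pf_HKR (hUUP : T_UUP) (hTLQ : T_TLQ) : T_HKR := by
  intro K α c δ ℓ q h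
  obtain ⟨hl1, hql, hTS, _, _⟩ := hTLQ K α c δ ℓ q h
  have hV := (hUUP K h.K0).2.2.2 ℓ hl1
  have hl0 : (0 : ℝ) < ℓ := by exact_mod_cast hl1
  have hVV : 0 < VV K ℓ := by
    by_contra hc
    push Not at hc
    have : 4 * TS K ℓ * VV K ℓ ≤ 0 := mul_nonpos_of_nonneg_of_nonpos (by positivity) hc
    have h2 : 0 < (ℓ : ℝ) ^ 2 := by positivity
    linarith
  have hpow : (ℓ : ℝ) ^ 2 = (ℓ : ℝ) ^ (1 + α) * (ℓ : ℝ) ^ (1 - α) := by
    rw [← Real.rpow_add hl0, ← Real.rpow_natCast]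
    congr 1
    push_cast
    ring
  have hp1 : 0 < (ℓ : ℝ) ^ (1 + α) := Real.rpow_pos_of_pos hl0 _
  have hc := h.c0
  have hkey : δ / 64 * (ℓ : ℝ) ^ (1 + α) ≤ c / 4 * VV K ℓ := by
    have h1 : c * (ℓ : ℝ) ^ 2 ≤ c * (4 * TS K ℓ * VV K ℓ) := mul_le_mul_of_nonneg_left hV hc.le
    have h2 : (ℓ : ℝ) ^ (1 + α) * (δ * TS K ℓ) ≤
        (ℓ : ℝ) ^ (1 + α) * (4 * c * (ℓ : ℝ) ^ (1 - α)) :=
      mul_le_mul_of_nonneg_left h.r2 hp1.le
    have h3 : TS K ℓ * (δ * (ℓ : ℝ) ^ (1 + α)) ≤ TS K ℓ * (16 * (c * VV K ℓ)) := by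
      rw [hpow] at h1
      nlinarith
    have h4 := le_of_mul_le_mul_left h3 hTS
    linarith
  refine ⟨?_, ?_, hVV⟩
  · intro j hj
    have hj0 : (0 : ℝ) < j := by
      have : 1 ≤ j := hl1.trans hj
      exact_mod_cast this
    have hlo := h.lo j (hql.trans hj)
    have hjp : 0 < (j : ℝ) ^ (-(1 + α)) := Real.rpow_pos_of_pos hj0 _
    have e1 : ((j : ℝ) / ℓ) ^ (-(1 + α)) = (ℓ : ℝ) ^ (1 + α) * (j : ℝ) ^ (-(1 + α)) := by
      rw [Real.div_rpow hj0.le hl0.le, Real.rpow_neg hl0.le, div_inv_eq_mul, mul_comm]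
    rw [e1]
    calc δ / 64 * ((ℓ : ℝ) ^ (1 + α) * (j : ℝ) ^ (-(1 + α)))
        = (δ / 64 * (ℓ : ℝ) ^ (1 + α)) * (j : ℝ) ^ (-(1 + α)) := by ring
      _ ≤ (c / 4 * VV K ℓ) * (j : ℝ) ^ (-(1 + α)) := mul_le_mul_of_nonneg_right hkey hjp.le
      _ = (c / 2 * (j : ℝ) ^ (-(1 + α))) / 2 * VV K ℓ := by ring
      _ ≤ kk K j / 2 * VV K ℓ := by
          refine mul_le_mul_of_nonneg_right ?_ hVV.le
          linarith
  · rw [Real.rpow_neg hl0.le, ← div_eq_mul_inv, le_div_iff₀ hp1]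
    linarith

end Pool.Agent.H86.SLN
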