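import Pool.Agent.H98.SLN.Targets

/-!
# Row USP of the board `sln_modules`: the neutral kernel
-/

set_option autoImplicit false

open MeasureTheory ProbabilityTheory Filter Topology
open Pool.Agent.H95 Pool.Agent.H95.Cop
open Pool.Agent.H55.CG (pz VV Mo)
open Pool.Agent.H98.CE (pc WB HK OBJ)
open Pool.Agent.H98.SLN

namespace Pool.Agent.H86.SLN

theorem exp_neg_le_half {y : ℝ} (h0 : 0 ≤ y) (h1 : y ≤ 1) : Real.exp (-y) ≤ 1 - y / 2 := by
  have h2 := Real.add_one_le_exp y
  have h3 : Real.exp (-y) * Real.exp y = 1 := by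
    rw [← Real.exp_add, neg_add_cancel, Real.exp_zero]
  have h4 : 0 < Real.exp (-y) := Real.exp_pos _
  have h5 : Real.exp (-y) * (y + 1) ≤ 1 := by
    calc Real.exp (-y) * (y + 1) ≤ Real.exp (-y) * Real.exp y :=
          mul_le_mul_of_nonneg_left h2 h4.le
      _ = 1 := h3
  nlinarith [mul_nonneg h0 (sub_nonneg.2 h1)]

theorem first_moment (K : PMF ℕ) (n : ℕ) :
    ∑ m ∈ Finset.range (n + 1), (m : ℝ) * kk K m =
      ∑ j ∈ Finset.range n, tailK K (j + 1) - n * tailK K (n + 1) := by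
  induction n with
  | zero => simp
  | succ n ih =>
    rw [Finset.sum_range_succ, ih, Finset.sum_range_succ, tailK_succ K (n + 1)]
    push_cast
    ring

theorem pf_USP (hTLQ : T_TLQ) : T_USP := by
  intro K α c δ k q h τ hτ hτk
  obtain ⟨hk1, _, hTS, _, htail⟩ := hTLQ K α c δ k q h
  have hk0 : (0 : ℝ) < k := by exact_mod_cast hk1
  have hδ := h.δ0
  have hδ1 := h.δ1
  have hc := h.c0
  obtain ⟨f, hf⟩ : ∃ f : ℕ → ℝ,
      f = fun m => kt K k τ m * Real.exp (-(64 * δ * m / k)) := ⟨_, rfl⟩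
  have hfm : ∀ m : ℕ, kt K k τ m * Real.exp (-(64 * δ * m / k)) = f m := by
    intro m
    rw [hf]
  simp only [hfm]
  have hkt0 : ∀ m, 0 ≤ kt K k τ m := by
    intro m
    unfold kt
    split_ifs
    · exact mul_nonneg (kk_nonneg K m) (by positivity)
    · exact le_rfl
  have hfn : ∀ n, 0 ≤ f n := by
    intro n
    rw [hf]
    exact mul_nonneg (hkt0 n) (Real.exp_pos _).le
  have hfz : ∀ m, k < m → f m = 0 := by
    intro m hm
    rw [hf]
    show kt K k τ m * _ = 0
    unfold kt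
    rw [if_neg (by omega), zero_mul]
  have hτm : ∀ m : ℕ, (τ * m) ^ 2 ≤ ((m : ℝ) / k) ^ 2 := by
    intro m
    have h1 : τ * m ≤ (m : ℝ) / k := by
      rw [le_div_iff₀ hk0]
      have : (0 : ℝ) ≤ m := Nat.cast_nonneg m
      nlinarith
    exact pow_le_pow_left₀ (by positivity) h1 2
  have hy0 : ∀ m : ℕ, 0 ≤ 64 * δ * m / k := fun m => by positivity
  have hfle : ∀ m : ℕ, m ≤ k → f m ≤ kk K m * (1 + ((m : ℝ) / k) ^ 2) := by
    intro m hm
    rw [← hfm]
    unfold kt
    rw [if_pos hm]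
    have e1 : Real.exp (-(64 * δ * m / k)) ≤ 1 := by
      rw [Real.exp_le_one_iff]
      have := hy0 m
      linarith
    calc kk K m * (1 + (τ * m) ^ 2) * Real.exp (-(64 * δ * m / k))
        ≤ kk K m * (1 + (τ * m) ^ 2) * 1 :=
          mul_le_mul_of_nonneg_left e1 (mul_nonneg (kk_nonneg K m) (by positivity))
      _ ≤ kk K m * (1 + ((m : ℝ) / k) ^ 2) := by
          rw [mul_one]
          exact mul_le_mul_of_nonneg_left (by linarith [hτm m]) (kk_nonneg K m)
  have hfle2 : ∀ m : ℕ, m ≤ k →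
      f m ≤ kk K m + (1 / (k : ℝ) ^ 2) * ((m : ℝ) ^ 2 * kk K m) - 32 * δ / k * (m * kk K m) := by
    intro m hm
    rw [← hfm]
    unfold kt
    rw [if_pos hm]
    have hmk : (m : ℝ) ≤ k := by exact_mod_cast hm
    have e0 : 64 * δ * m / k ≤ 1 := by
      rw [div_le_one hk0]
      have h64 : 64 * δ ≤ 1 := by
        have : (1 : ℝ) / 2 ^ 20 ≤ 1 / 64 := by norm_num
        linarith
      have hm0 : (0 : ℝ) ≤ m := Nat.cast_nonneg m
      nlinarith
    have e1 := exp_neg_le_half (hy0 m) e0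
    have e2 : (1 + (τ * m) ^ 2) * Real.exp (-(64 * δ * m / k)) ≤
        1 + ((m : ℝ) / k) ^ 2 - 32 * δ / k * m := by
      calc (1 + (τ * m) ^ 2) * Real.exp (-(64 * δ * m / k))
          ≤ (1 + (τ * m) ^ 2) * (1 - 64 * δ * m / k / 2) :=
            mul_le_mul_of_nonneg_left e1 (by positivity)
        _ = 1 + (τ * m) ^ 2 - 64 * δ * m / k / 2 - (τ * m) ^ 2 * (64 * δ * m / k / 2) := by ring
        _ ≤ 1 + ((m : ℝ) / k) ^ 2 - 64 * δ * m / k / 2 := by
            have h1 := hτm m
            have h2 : 0 ≤ (τ * m) ^ 2 * (64 * δ * m / k / 2) := by positivity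
            linarith
        _ = 1 + ((m : ℝ) / k) ^ 2 - 32 * δ / k * m := by ring
    calc kk K m * (1 + (τ * m) ^ 2) * Real.exp (-(64 * δ * m / k))
        = kk K m * ((1 + (τ * m) ^ 2) * Real.exp (-(64 * δ * m / k))) := by ring
      _ ≤ kk K m * (1 + ((m : ℝ) / k) ^ 2 - 32 * δ / k * m) :=
          mul_le_mul_of_nonneg_left e2 (kk_nonneg K m)
      _ = _ := by
          rw [div_pow]
          ring
  -- the second moments
  have hp : (k : ℝ) ^ (2 - α) = (k : ℝ) ^ (1 - α) * k := by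
    have : (2 : ℝ) - α = (1 - α) + 1 := by ring
    rw [this, Real.rpow_add hk0, Real.rpow_one]
  have hs2 : (1 / (k : ℝ) ^ 2) * ∑ m ∈ Finset.range (k + 1), (m : ℝ) ^ 2 * kk K m ≤
      4 * (c * (k : ℝ) ^ (1 - α)) / k := by
    have h1 := h.s2
    calc (1 / (k : ℝ) ^ 2) * ∑ m ∈ Finset.range (k + 1), (m : ℝ) ^ 2 * kk K m
        ≤ (1 / (k : ℝ) ^ 2) * (4 * c * (k : ℝ) ^ (2 - α)) :=
          mul_le_mul_of_nonneg_left h1 (by positivity)
      _ = 4 * (c * (k : ℝ) ^ (1 - α)) / k := by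
          rw [hp]
          field_simp
  have hr1 : 4 * (c * (k : ℝ) ^ (1 - α)) / k ≤ 16 * δ * TS K k / k := by
    have h1 := h.r1
    exact div_le_div_of_nonneg_right (by linarith) hk0.le
  have htail' : tailK K (k + 1) * k ≤ TS K k / 2 := by
    refine htail.trans ?_
    have h1 : 16 * δ ≤ 1 / 2 := by
      have : (1 : ℝ) / 2 ^ 20 ≤ 1 / 32 := by norm_num
      linarith
    nlinarith
  have hfull : ∑ m ∈ Finset.range (k + 1), f m ≤ 1 := by
    have h1 : ∑ m ∈ Finset.range (k + 1), f m ≤ ∑ m ∈ Finset.range (k + 1),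
        (kk K m + (1 / (k : ℝ) ^ 2) * ((m : ℝ) ^ 2 * kk K m) - 32 * δ / k * (m * kk K m)) := by
      refine Finset.sum_le_sum fun m hm => ?_
      rw [Finset.mem_range] at hm
      exact hfle2 m (by omega)
    rw [Finset.sum_sub_distrib, Finset.sum_add_distrib, ← Finset.mul_sum, ← Finset.mul_sum,
      first_moment] at h1
    have h2 : ∑ m ∈ Finset.range (k + 1), kk K m = 1 - tailK K (k + 1) := by
      unfold tailK
      ring
    have h3 : ∑ j ∈ Finset.range k, tailK K (j + 1) = TS K k := rfl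
    rw [h2, h3] at h1
    have h4 : 16 * δ * TS K k / k ≤ 32 * δ / k * (TS K k - k * tailK K (k + 1)) := by
      have h5 : TS K k / 2 ≤ TS K k - k * tailK K (k + 1) := by linarith
      calc 16 * δ * TS K k / k = 32 * δ / k * (TS K k / 2) := by ring
        _ ≤ _ := mul_le_mul_of_nonneg_left h5 (by positivity)
    have h6 := tailK_nonneg K (k + 1)
    linarith
  constructor
  · intro N
    have h1 : ∑ m ∈ Finset.range N, f m ≤ ∑ m ∈ Finset.range (max N (k + 1)), f m := by
      refine Finset.sum_le_sum_of_subset_of_nonneg ?_ fun j _ _ => hfn _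
      intro j hj
      rw [Finset.mem_range] at hj ⊢
      exact lt_of_lt_of_le hj (le_max_left _ _)
    have h2 : ∑ m ∈ Finset.range (k + 1), f m = ∑ m ∈ Finset.range (max N (k + 1)), f m := by
      refine Finset.sum_subset ?_ ?_
      · intro j hj
        rw [Finset.mem_range] at hj ⊢
        exact lt_of_lt_of_le hj (le_max_right _ _)
      · intro j _ hj
        rw [Finset.mem_range, not_lt] at hj
        exact hfz j (by omega)
    rw [← h2] at h1
    exact h1.trans hfull
  · obtain ⟨s, hsdef⟩ : ∃ s : ℝ, s = 4 * (c * (k : ℝ) ^ (1 - α)) / k := ⟨_, rfl⟩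
    have hj : ∀ j ∈ Finset.range k, tailK K (j + 1) - s ≤ 1 - ∑ m ∈ Finset.range (j + 1), f m := by
      intro j hj
      rw [Finset.mem_range] at hj
      have h1 : ∑ m ∈ Finset.range (j + 1), f m ≤ ∑ m ∈ Finset.range (j + 1),
          (kk K m + (1 / (k : ℝ) ^ 2) * ((m : ℝ) ^ 2 * kk K m)) := by
        refine Finset.sum_le_sum fun m hm => ?_
        rw [Finset.mem_range] at hm
        refine (hfle m (by omega)).trans (le_of_eq ?_)
        rw [div_pow]
        ring
      rw [Finset.sum_add_distrib, ← Finset.mul_sum] at h1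
      have h2 : ∑ m ∈ Finset.range (j + 1), (m : ℝ) ^ 2 * kk K m ≤
          ∑ m ∈ Finset.range (k + 1), (m : ℝ) ^ 2 * kk K m := by
        refine Finset.sum_le_sum_of_subset_of_nonneg ?_
          fun i _ _ => mul_nonneg (sq_nonneg _) (kk_nonneg K i)
        intro i hi
        rw [Finset.mem_range] at hi ⊢
        omega
      have h3 : (1 / (k : ℝ) ^ 2) * ∑ m ∈ Finset.range (j + 1), (m : ℝ) ^ 2 * kk K m ≤ s := by
        rw [hsdef]
        exact (mul_le_mul_of_nonneg_left h2 (by positivity)).trans hs2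
      have h4 : ∑ m ∈ Finset.range (j + 1), kk K m = 1 - tailK K (j + 1) := by
        unfold tailK
        ring
      rw [h4] at h1
      linarith
    have h1 := Finset.sum_le_sum hj
    rw [Finset.sum_sub_distrib, Finset.sum_const, Finset.card_range, nsmul_eq_mul] at h1
    have h2 : ∑ j ∈ Finset.range k, tailK K (j + 1) = TS K k := rfl
    rw [h2] at h1
    refine le_trans ?_ h1
    have h3 : (k : ℝ) * s = 4 * (c * (k : ℝ) ^ (1 - α)) := by
      rw [hsdef]
      field_simp
    rw [h3]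
    have h4 := h.r1
    have h5 : 16 * δ ≤ 1 / 2 := by
      have : (1 : ℝ) / 2 ^ 20 ≤ 1 / 32 := by norm_num
      linarith
    nlinarith

end Pool.Agent.H86.SLN
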